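import Mathlib
import Pool.Agent.Lib.helper17.ResFinInf

set_option autoImplicit false

namespace Pool.Agent.Results.MP_f264ea_lc.Groups

open Pool.Agent.Lib.helper17.ResFinInf

universe u

theorem result :
    ∃ φ : Fm LG Empty, ∀ (M : Type u) (s : LG.Structure M),
      (@Sat LG M s Empty φ Empty.elim ↔ ∃ _ : Group M, s = strG M ∧ ResFinGroup M) := by
  refine ⟨and2 axG (colF LG), fun M s => ?_⟩
  rw [sat_and2, sat_axG, sat_colF]
  constructor
  · rintro ⟨⟨g, rfl⟩, h⟩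
    exact ⟨g, rfl, (colG M).1 h⟩
  · rintro ⟨g, rfl, h⟩
    exact ⟨⟨g, rfl⟩, (colG M).2 h⟩

end Pool.Agent.Results.MP_f264ea_lc.Groups
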