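import Mathlib
import Pool.Agent.Lib.helper17.ResFinInf

set_option autoImplicit false

namespace Pool.Agent.Results.MP_f264ea_lc.Rings

open Pool.Agent.Lib.helper17.ResFinInf

universe u

theorem result :
    ∃ φ : Fm LR Empty, ∀ (M : Type u) (s : LR.Structure M),
      (@Sat LR M s Empty φ Empty.elim ↔ ∃ _ : NonUnitalRing M, s = strR M ∧ ResFinRing M) := by
  refine ⟨and2 axR (colF LR), fun M s => ?_⟩
  rw [sat_and2, sat_axR, sat_colF]
  constructor
  · rintro ⟨⟨g, rfl⟩, h⟩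
    exact ⟨g, rfl, (colR M).1 h⟩
  · rintro ⟨g, rfl, h⟩
    exact ⟨⟨g, rfl⟩, (colR M).2 h⟩

end Pool.Agent.Results.MP_f264ea_lc.Rings
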